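import Pool.Agent.H854R3.CR.Stmts2

set_option autoImplicit false

namespace Pool.Agent.H553R3.CR

open Pool.Agent.H854R3.CR

theorem ge_add {k : ℕ} {f g : G} (hf : GeZ k f) (hg : GeZ k g) : GeZ k (f + g) := by
  intro w hw
  by_contra hlt
  apply hw
  have h1 : f.coeff w = 0 := by by_contra h; exact hlt (hf w h)
  have h2 : g.coeff w = 0 := by by_contra h; exact hlt (hg w h)
  rw [MonoidAlgebra.coeff_add, Finsupp.add_apply, h1, h2, add_zero]

theorem ge_zero (k : ℕ) : GeZ k (0 : G) := by
  intro w hw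
  simp at hw

theorem ge_neg {k : ℕ} {f : G} (hf : GeZ k f) : GeZ k (-f) := by
  intro w hw
  apply hf w
  intro h
  apply hw
  rw [MonoidAlgebra.coeff_neg, Finsupp.neg_apply, h, neg_zero]

theorem ge_sub {k : ℕ} {f g : G} (hf : GeZ k f) (hg : GeZ k g) : GeZ k (f - g) := by
  rw [sub_eq_add_neg]; exact ge_add hf (ge_neg hg)

theorem ge_mono {k l : ℕ} (h : k ≤ l) {f : G} (hf : GeZ l f) : GeZ k f :=
  fun w hw => h.trans (hf w hw)

theorem ge_mul {k l : ℕ} {f g : G} (hf : GeZ k f) (hg : GeZ l g) : GeZ (k + l) (f * g) := by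
  classical
  intro w hw
  rw [MonoidAlgebra.coeff_mul, Finsupp.sum] at hw
  obtain ⟨a, ha, h1⟩ := Finset.exists_ne_zero_of_sum_ne_zero hw
  rw [Finsupp.sum] at h1
  obtain ⟨b, hb, h2⟩ := Finset.exists_ne_zero_of_sum_ne_zero h1
  rw [Finsupp.mem_support_iff] at ha hb
  have h3 : a * b = w := by
    by_contra h
    rw [if_neg h] at h2
    exact h2 rfl
  rw [← h3, FreeMonoid.length_mul]
  exact add_le_add (hf a ha) (hg b hb)

theorem ge_smul {k : ℕ} (c : ℤ) {f : G} (hf : GeZ k f) : GeZ k (c • f) := by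
  intro w hw
  apply hf w
  intro h
  apply hw
  rw [MonoidAlgebra.coeff_smul, Finsupp.smul_apply, h, smul_zero]

theorem ge_sum {ι : Type} (s : Finset ι) (k : ℕ) (f : ι → G) (hf : ∀ i ∈ s, GeZ k (f i)) :
    GeZ k (∑ i ∈ s, f i) := by
  classical
  induction s using Finset.induction_on with
  | empty => simpa using ge_zero k
  | insert a s ha ih =>
    rw [Finset.sum_insert ha]
    exact ge_add (hf a (Finset.mem_insert_self _ _)) (ih fun i hi => hf i (Finset.mem_insert_of_mem hi))

theorem ge_single (w : W2) (c : ℤ) : GeZ w.length (MonoidAlgebra.single w c : G) := by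
  classical
  intro w' hw
  rw [MonoidAlgebra.coeff_single, Finsupp.single_apply] at hw
  split_ifs at hw with h
  · rw [h]
  · exact absurd rfl hw

theorem ev_single (a b : G) (w : W2) :
    ev a b (MonoidAlgebra.single w 1) = FreeMonoid.lift ![gx + a, gy + b] w := by
  unfold ev
  rw [MonoidAlgebra.lift_single, one_smul]

/-- the generators -/
theorem gen_ge (i : Fin 2) : GeZ 1 (MonoidAlgebra.single (FreeMonoid.of i) 1 : G) := by
  have := ge_single (FreeMonoid.of i) 1
  rwa [FreeMonoid.length_of] at this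

theorem word (a b : G) (ha : GeZ 2 a) (hb : GeZ 2 b) (w : W2) :
    GeZ (w.length + 1) (MonoidAlgebra.single w 1 - ev a b (MonoidAlgebra.single w 1)) ∧
      GeZ w.length (ev a b (MonoidAlgebra.single w 1)) := by
  induction w using FreeMonoid.inductionOn' with
  | one =>
    rw [ev_single, map_one]
    refine ⟨?_, ?_⟩
    · rw [← MonoidAlgebra.one_def, sub_self]; exact ge_zero _
    · rw [FreeMonoid.length_one]; intro w _; exact Nat.zero_le _
  | of_mul i w ih =>
    obtain ⟨h1, h2⟩ := ih
    obtain ⟨c, hc, hl⟩ : ∃ c : G, GeZ 2 c ∧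
        (![gx + a, gy + b] : Fin 2 → G) i = MonoidAlgebra.single (FreeMonoid.of i) 1 + c := by
      fin_cases i
      · exact ⟨a, ha, rfl⟩
      · exact ⟨b, hb, rfl⟩
    have e1 : (MonoidAlgebra.single (FreeMonoid.of i * w) 1 : G) =
        MonoidAlgebra.single (FreeMonoid.of i) 1 * MonoidAlgebra.single w 1 := by
      rw [MonoidAlgebra.single_mul_single, one_mul]
    have e2 : ev a b (MonoidAlgebra.single (FreeMonoid.of i * w) 1) =
        (MonoidAlgebra.single (FreeMonoid.of i) 1 + c) * ev a b (MonoidAlgebra.single w 1) := by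
      rw [ev_single, ev_single, map_mul, FreeMonoid.lift_eval_of, hl]
    have hlen : (FreeMonoid.of i * w).length = 1 + w.length := by
      rw [FreeMonoid.length_mul, FreeMonoid.length_of]
    set s := (MonoidAlgebra.single w 1 : G)
    set x := (MonoidAlgebra.single (FreeMonoid.of i) 1 : G)
    have hx : GeZ 1 x := gen_ge i
    rw [e2, e1, hlen]
    refine ⟨?_, ?_⟩
    · have e3 : x * s - (x + c) * ev a b s = x * (s - ev a b s) - c * ev a b s := by
        rw [mul_sub, add_mul]; abel
      rw [e3]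
      apply ge_sub
      · have := ge_mul hx h1
        rwa [← add_assoc] at this
      · have := ge_mul hc h2
        exact ge_mono (by omega) this
    · apply ge_mul _ h2
      exact ge_add hx (ge_mono (by norm_num) hc)

theorem dec (f : G) : f = ∑ w ∈ f.coeff.support, f.coeff w • (MonoidAlgebra.single w 1 : G) := by
  have h := MonoidAlgebra.sum_coeff_single f
  rw [Finsupp.sum] at h
  conv_lhs => rw [← h]
  apply Finset.sum_congr rfl
  intro w _
  rw [MonoidAlgebra.smul_single, smul_eq_mul, mul_one]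

theorem step (a b : G) (ha : GeZ 2 a) (hb : GeZ 2 b) (k : ℕ) (f : G) (hf : GeZ k f) :
    GeZ (k + 1) (f - ev a b f) := by
  have e : f - ev a b f = ∑ w ∈ f.coeff.support, f.coeff w •
      ((MonoidAlgebra.single w 1 : G) - ev a b (MonoidAlgebra.single w 1)) := by
    conv_lhs => rw [dec f]
    rw [map_sum, ← Finset.sum_sub_distrib]
    apply Finset.sum_congr rfl
    intro w _
    rw [map_smul, smul_sub]
  rw [e]
  apply ge_sum
  intro w hw
  apply ge_smul
  have h1 := hf w (Finsupp.mem_support_iff.1 hw)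
  exact ge_mono (by omega) (word a b ha hb w).1

theorem inv (a b : G) (ha : GeZ 2 a) (hb : GeZ 2 b) (j : ℕ) : ∀ (k : ℕ) (g : G), GeZ k g →
    ∃ W : G, GeZ k W ∧ GeZ (k + j) (g - ev a b W) := by
  induction j with
  | zero => intro k g hg; exact ⟨0, ge_zero k, by rw [map_zero, sub_zero]; exact hg⟩
  | succ j ih =>
    intro k g hg
    obtain ⟨W, h1, h2⟩ := ih (k + 1) (g - ev a b g) (step a b ha hb k g hg)
    refine ⟨g + W, ge_add hg (ge_mono (by omega) h1), ?_⟩
    have e : g - ev a b (g + W) = g - ev a b g - ev a b W := by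
      rw [map_add]; abel
    rw [e]
    exact ge_mono (by omega) h2

theorem taskInv : TaskInv := by
  intro a b ha hb g hg M
  obtain ⟨W, h1, h2⟩ := inv a b ha hb M 1 g hg
  exact ⟨W, h1, ge_mono (by omega) h2⟩

end Pool.Agent.H553R3.CR
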